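import Pool.Agent.Lib.MP_b5021c_nt.KV.H96.Vdf

/-!
# MP_b5021c_nt, all `θ`, route V: a ray of type `(0,0)` with a mutual partner
-/

namespace Pool.Agent.B5.KV

open scoped LaurentPolynomial
open Pool.Agent.B5.H07 (US_sat mem_US)
open Pool.Agent.B5.H63 (finrank_lt_of_sat)

section

variable {P L : Type} [Fintype P] [DecidableEq P] [AddCommGroup L] [Module.Free ℤ L]
  [Module.Finite ℤ L] {phi : L →+ (P → ℤ)} {D : AO ℤ L}

/-- INCLUSION: `T' ∉ U_T`, `T ∈ U_T'`. -/
theorem incl' (W : Rws) (fp : FP phi D) {T T' : L} {e e' : (RO ℤ)ˣ} (hT : Ray D T)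
    (hT' : Ray D T') (h1 : T' ∉ US e T D) (h2 : T ∈ US e' T' D) :
    US e T D ≤ US e' T' D ∧ Module.finrank ℤ (US e T D) < Module.finrank ℤ (US e' T' D) := by
  have hA := W.f3 ℤ P L phi D T T' e e' fp.dd.inj fp.dd.bin hT hT' h1
  have h6 : US e T D ≤ US e' T' D := by
    refine hA.trans (H63.satur_le ?_)
    rw [sup_le_iff]
    refine ⟨le_rfl, ?_⟩
    rw [Submodule.span_singleton_le_iff_mem]
    exact h2
  exact ⟨h6, finrank_lt_of_sat h6 (US_sat _ _ _) (mem_US e' T' D) h1⟩

section kt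

variable {S0 S1 T T' : L} {e0 e1 eT eT' : (RO ℤ)ˣ} {b : Bool} {nu : L →+ ℤ} {i j : ℕ}
  {p r p' r' : RO ℤ}

/-- The formulas of the type `(0,0)`. -/
theorem Kt.z0 (kt : Kt D S0 S1 e0 e1 b T 0 0 p r) : D.coeff T = (1 - la) * r ∧
    (e0 : RO ℤ) * D.coeff (T + S0) = -r ∧ (e1 : RO ℤ) * D.coeff (T + S1) = -r ∧
    (e0 : RO ℤ) * (e1 : RO ℤ) * D.coeff (T + S0 + S1) = r := by
  have h1 := kt.th
  rw [pow_zero, pow_zero, mul_one, mul_one] at h1
  have c1 := kt.nf.c00
  have c2 := kt.nf.c10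
  have c3 := kt.nf.c01
  have c4 := kt.nf.c11
  rw [if_pos (by norm_num)] at c1
  rw [if_neg (by norm_num), zero_sub] at c2 c3
  rw [if_neg (by norm_num), zero_add] at c4
  exact ⟨by rw [c1, h1]; ring, c2, c3, c4⟩

/-- A ray of type `(0,0)`: `S0` is in `U_T`. -/
theorem p4 (W : Rws) (fp : FP phi D) (hT : Ray D T) (hS : Ray D S0)
    (ho : ∀ q, phi T q = 0 ∨ phi S0 q = 0) (h0 : D.coeff T = (1 - la) * r)
    (h1 : (e0 : RO ℤ) * D.coeff (T + S0) = -r)
    (hA : (eT : RO ℤ) * D.coeff T ≠ (1 - la) * ((e0 : RO ℤ) * D.coeff S0)) :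
    S0 ∈ US eT T D := by
  by_contra hcon
  obtain ⟨k, hk0⟩ := KE.exists_port fp.dd hT
  have hTk : phi T k = 1 := hk0
  obtain ⟨-, h2⟩ := f1use W fp hT hS.1 hcon (by
    intro h
    have h3 := h k ((ho k).resolve_left (by rw [hTk]; exact one_ne_zero))
    omega)
  apply hA
  rw [add_comm S0 T] at h2
  rw [h0]
  linear_combination (-(1 - la) * (e0 : RO ℤ)) * h2 + ((1 - la) * (eT : RO ℤ)) * h1

/-- The class of a ray outside `U_T`, `T` moved and of type `(0,0)`. -/
theorem killed (W : Rws) (fp : FP phi D) (m : Mut D S0 S1 e0 e1)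
    (hk : Kil phi D S0 S1 (e0 * ta b) (e1 * ta (!b)) nu) (hT : Ray D T) (hnT : nu T ≠ 0)
    (ho : Out phi S0 S1 T) (hU0 : S0 ∈ US eT T D) (hU1 : S1 ∈ US eT T D) (hT' : Ray D T')
    (hU : T' ∉ US eT T D) :
    (∀ q, phi T' q = 0 ∨ phi T q = 0) ∧ Out phi S0 S1 T' ∧
      ∃ (i j : ℕ) (p r : RO ℤ), Kt D S0 S1 e0 e1 b T' i j p r := by
  have hdis := W.f2 ℤ P L phi D T' T eT fp.dd.inj fp.dd.bin hT' hT hU
  refine ⟨hdis, ?_⟩
  obtain ⟨k, hk0⟩ := KE.exists_port fp.dd hT
  have hTk : phi T k = 1 := hk0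
  have hsum : (eT : RO ℤ) * D.coeff (T' + T) = -D.coeff T' := (f1use W fp hT hT'.1 hU (by
    intro h
    have h3 := h k ((hdis k).resolve_right (by rw [hTk]; exact one_ne_zero))
    omega)).2
  have hTT : T' + T ∈ supp D := by
    intro h
    change D.coeff (T' + T) = 0 at h
    rw [h, mul_zero] at hsum
    exact hT'.1 (neg_eq_zero.mp hsum.symm)
  rcases W.mpa ℤ P L phi D S0 S1 e0 e1 fp.dd.inj fp.dd.bin m T' hT'.1 with
    ⟨h1, -⟩ | ⟨-, a, s, t, hs, ht, ha, hTa⟩
  · -- partial: impossible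
    exfalso
    have h3 := hk.part T' hT'.1 h1
    have hpt : ∀ {S : L}, (∀ q, phi T q = 0 ∨ phi S q = 0) → Part phi S T' →
        Part phi S (T' + T) := by
      rintro S hd ⟨⟨x, hx1, hx2⟩, y, hy1, hy2⟩
      refine ⟨⟨x, ?_, hx2⟩, y, ?_, hy2⟩
      · rw [map_add, Pi.add_apply, hx1, (hd x).resolve_right (by rw [hx2]; exact one_ne_zero),
          add_zero]
      · rw [map_add, Pi.add_apply, hy1, (hd y).resolve_right (by rw [hy2]; exact one_ne_zero),
          add_zero]
    have h4 := hk.part (T' + T) hTT (by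
      rcases h1 with h | h
      · exact Or.inl (hpt (fun q => (ho q).imp id And.left) h)
      · exact Or.inr (hpt (fun q => (ho q).imp id And.right) h))
    rw [map_add, h3, zero_add] at h4
    exact hnT h4
  · by_cases hn : nu T' = 0
    · have hna : nu a = 0 := by
        rw [hTa, map_add, map_add, map_nsmul, map_nsmul, hk.s0, hk.s1] at hn
        simpa using hn
      -- `a` is disjoint from `T`
      have had : ∀ q, phi a q = 0 ∨ phi T q = 0 := by
        intro q
        rcases ho q with h1 | ⟨h1, h2⟩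
        · exact Or.inr h1
        · rcases hdis q with h3 | h3
          · left
            rw [hTa, map_add, map_add, map_nsmul, map_nsmul, Pi.add_apply, Pi.add_apply,
              Pi.smul_apply, Pi.smul_apply, h1, h2] at h3
            simpa using h3
          · exact Or.inr h3
      have haT : Out phi S0 S1 (a + T) := by
        intro q
        rcases ha q with h1 | h1
        · rcases ho q with h2 | h2
          · left
            rw [map_add, Pi.add_apply, h1, h2, add_zero]
          · exact Or.inr h2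
        · exact Or.inr h1
      have hnaT : nu (a + T) ≠ 0 := by
        rw [map_add, hna, zero_add]
        exact hnT
      have hz : Nz D S0 S1 (a + T) := by
        have h2 : D.coeff (T' + T) ≠ 0 := hTT
        rw [hTa] at h2
        rcases Nat.le_one_iff_eq_zero_or_eq_one.mp hs with h3 | h3 <;>
          rcases Nat.le_one_iff_eq_zero_or_eq_one.mp ht with h4 | h4 <;>
          rw [h3, h4] at h2 <;>
          simp only [zero_smul, one_smul, add_zero] at h2
        · exact Or.inl h2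
        · exact Or.inr (Or.inr (Or.inl (by rwa [add_right_comm] at h2)))
        · exact Or.inr (Or.inl (by rwa [add_right_comm] at h2))
        · refine Or.inr (Or.inr (Or.inr ?_))
          have h5 : a + S0 + S1 + T = a + T + S0 + S1 := by abel
          rwa [h5] at h2
      have hcsT := hk.free (a + T) haT hnaT
      obtain ⟨i, j, p, r, kt⟩ := kt_of W.mnf fp.dd.inj fp.dd.bin m haT hcsT hz
      -- the four members of the class of `a`
      have haU : ∀ x : L, x ∈ US eT T D → a + x ∉ US eT T D := by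
        intro x hx h
        apply hU
        have h1 : T' = a + x + (s • S0 + t • S1 - x) := by
          rw [hTa]
          abel
        rw [h1]
        exact Submodule.add_mem _ h (Submodule.sub_mem _ (Submodule.add_mem _
          (Submodule.smul_of_tower_mem _ s hU0) (Submodule.smul_of_tower_mem _ t hU1)) hx)
      have hrel : ∀ x : L, x ∈ US eT T D → (∀ q, phi x q = 0 ∨ phi T q = 0) →
          D.coeff (a + x) + (eT : RO ℤ) * D.coeff (a + T + x) = 0 := by
        intro x hx hxd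
        have h1 := (W.f1 ℤ P L phi D T eT fp.dd.inj fp.dd.bin (fp.dd.bin T hT.1) hT.2.1 (a + x)
          (haU x hx)).2 (by
            intro q
            rcases had q with h2 | h2
            · rcases hxd q with h3 | h3
              · left
                rw [map_add, Pi.add_apply, h2, h3, add_zero]
              · exact Or.inr h3
            · exact Or.inr h2)
        rwa [add_right_comm a x T] at h1
      have d0 : ∀ q, phi S0 q = 0 ∨ phi T q = 0 := fun q => (ho q).symm.imp And.left id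
      have d1 : ∀ q, phi S1 q = 0 ∨ phi T q = 0 := fun q => (ho q).symm.imp And.right id
      have g0 := hrel 0 (Submodule.zero_mem _) (fun q => Or.inl (by simp))
      have g1 := hrel S0 hU0 d0
      have g2 := hrel S1 hU1 d1
      have g3 := hrel (S0 + S1) (Submodule.add_mem _ hU0 hU1) (by
        intro q
        rcases d0 q with h1 | h1
        · rcases d1 q with h2 | h2
          · left
            rw [map_add, Pi.add_apply, h1, h2, add_zero]
          · exact Or.inr h2
        · exact Or.inr h1)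
      rw [add_zero, add_zero] at g0
      rw [← add_assoc, ← add_assoc] at g3
      have haD : D.coeff a ≠ 0 := by
        intro h
        rw [h, zero_add] at g0
        exact kt.c00 ((mul_eq_zero.mp g0).resolve_left eT.ne_zero)
      have hcs : cs D S0 S1 (e0 * ta b) (e1 * ta (!b)) a = 0 := by
        have h1 : cs D S0 S1 (e0 * ta b) (e1 * ta (!b)) a =
            -((eT : RO ℤ) * cs D S0 S1 (e0 * ta b) (e1 * ta (!b)) (a + T)) := by
          unfold cs
          linear_combination g0 + ((e0 * ta b : (RO ℤ)ˣ) : RO ℤ) * g1 +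
            ((e1 * ta (!b) : (RO ℤ)ˣ) : RO ℤ) * g2 +
            ((e0 * ta b : (RO ℤ)ˣ) : RO ℤ) * ((e1 * ta (!b) : (RO ℤ)ˣ) : RO ℤ) * g3
        have h2 : cs D S0 S1 (e0 * ta b) (e1 * ta (!b)) (a + T) = 0 := hcsT
        rw [h1, h2, mul_zero, neg_zero]
      have haT' : a = T' := by
        by_contra hne
        obtain ⟨lam, hl0, hl⟩ := hT'.2.2
        have ha0 : a ≠ 0 := by
          rintro rfl
          exact haU 0 (Submodule.zero_mem _) (by rw [add_zero]; exact Submodule.zero_mem _)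
        have h3 := hl a haD ha0 hne
        have h4 : 0 < lam S0 := hl S0 m.r0.1 m.r0.2.1 (by rintro rfl; exact hU hU0)
        have h5 : 0 < lam S1 := hl S1 m.r1.1 m.r1.2.1 (by rintro rfl; exact hU hU1)
        rw [hTa, map_add, map_add, map_nsmul, map_nsmul] at hl0
        have h6 : (0 : ℤ) ≤ s • lam S0 := nsmul_nonneg h4.le s
        have h7 : (0 : ℤ) ≤ t • lam S1 := nsmul_nonneg h5.le t
        omega
      rw [haT'] at hcs ha haD
      exact ⟨ha, kt_of W.mnf fp.dd.inj fp.dd.bin m ha hcs (Or.inl haD)⟩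
    · exact kt_ray W.mnf W.mpa fp.dd.inj fp.dd.bin m hk hT' hn

/-- `T` of type `(0,0)`, `T'` outside `U_T` and mutual with `S0`: `T` is outside `U_T'`. -/
theorem partner0 (W : Rws) (fp : FP phi D) (hT : Ray D T) (hTd : ∀ q, phi T q = 0 ∨ phi S0 q = 0)
    (h0 : D.coeff T = (1 - la) * r) (h1 : (e0 : RO ℤ) * D.coeff (T + S0) = -r)
    (hTU0 : T ∈ US e0 S0 D) (hT' : Ray D T') (hdis : ∀ q, phi T' q = 0 ∨ phi T q = 0)
    (hU : T' ∉ US eT T D) (m' : Mut D S0 T' e0 eT')
    (hA : (eT : RO ℤ) * D.coeff T ≠ (1 - la) * ((e0 : RO ℤ) * D.coeff S0)) :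
    T ∉ US eT' T' D := by
  intro hTU
  obtain ⟨k, hk0⟩ := KE.exists_port fp.dd hT
  have hTk : phi T k = 1 := hk0
  have hsum : (eT : RO ℤ) * D.coeff (T' + T) = -D.coeff T' := (f1use W fp hT hT'.1 hU (by
    intro h
    have h3 := h k ((hdis k).resolve_right (by rw [hTk]; exact one_ne_zero))
    omega)).2
  have ho : Out phi S0 T' T := by
    intro q
    rcases hTd q with h2 | h2
    · exact Or.inl h2
    · rcases hdis q with h3 | h3
      · exact Or.inr ⟨h2, h3⟩
      · exact Or.inl h3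
  obtain ⟨i, j, p', r', hn, hu⟩ := W.mnf ℤ P L phi D S0 T' e0 eT' fp.dd.inj fp.dd.bin m' T ho
  have key : p' = 0 ∨ (i = 0 ∧ j = 0) := by
    by_cases hp : p' = 0
    · exact Or.inl hp
    · right
      obtain ⟨u0, u1⟩ := hu hp
      constructor
      · rcases Nat.le_one_iff_eq_zero_or_eq_one.mp hn.i1 with h | h
        · exact h
        · exfalso
          apply m'.m1
          have h2 := Submodule.sub_mem _ u1 (Submodule.add_mem _ hTU
            (Submodule.smul_of_tower_mem (US eT' T' D) j (mem_US eT' T' D)))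
          rw [h, one_smul] at h2
          have h3 : T + S0 + j • T' - (T + j • T') = S0 := by abel
          rwa [h3] at h2
      · rcases Nat.le_one_iff_eq_zero_or_eq_one.mp hn.j1 with h | h
        · exact h
        · exfalso
          apply m'.m0
          have h2 := Submodule.sub_mem _ u0 (Submodule.add_mem _ hTU0
            (Submodule.smul_of_tower_mem (US e0 S0 D) i (mem_US e0 S0 D)))
          rw [h, one_smul] at h2
          have h3 : T + i • S0 + T' - (T + i • S0) = T' := by abel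
          rwa [h3] at h2
  have c2 := hn.c10
  have c3 := hn.c01
  have e2 : (e0 : RO ℤ) * D.coeff (T + S0) = -r' := by
    rw [c2]
    rcases key with h | h
    · rw [h, ite_self, zero_sub]
    · rw [h.1, if_neg (by norm_num), zero_sub]
  have e3 : (eT' : RO ℤ) * D.coeff (T + T') = -r' := by
    rw [c3]
    rcases key with h | h
    · rw [h, ite_self, zero_sub]
    · rw [h.2, if_neg (by norm_num), zero_sub]
  have e4 := (W.mco ℤ P L phi D S0 T' e0 eT' fp.dd.inj fp.dd.bin m').2.1
  apply hA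
  rw [add_comm T' T] at hsum
  rw [h0]
  linear_combination (1 - la) * (e4 + (-(eT' : RO ℤ)) * hsum + (eT : RO ℤ) * e3 -
    (eT : RO ℤ) * e2 + (eT : RO ℤ) * h1)

end kt

/-- (PAR) a moved ray of type `(0,0)` gives a ray of type `(0,0)` with a mutual partner. -/
theorem par (W : Rws) (fp : FP phi D) {eta : L → (RO ℤ)ˣ} {S0 S1 : L} (hS0 : Mx D eta S0)
    (hS1 : Mx D eta S1) (m : Mut D S0 S1 (eta S0) (eta S1))
    (hall : ∀ T, Ray D T → ∃ T', Ray D T' ∧ T' ∉ US (eta T) T D)
    (hA : ∀ T, Ray D T → (eta T : RO ℤ) * D.coeff T ≠ (1 - la) * ((eta S0 : RO ℤ) * D.coeff S0))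
    {nu : L →+ ℤ} {b : Bool} (hk : Kil phi D S0 S1 (eta S0 * ta b) (eta S1 * ta (!b)) nu)
    (hmov : ∃ (R : L) (p r : RO ℤ), Ray D R ∧ nu R ≠ 0 ∧ Out phi S0 S1 R ∧
      Kt D S0 S1 (eta S0) (eta S1) b R 0 0 p r) :
    ∃ (R R1 : L) (p r : RO ℤ), Out phi S0 S1 R ∧ Kt D S0 S1 (eta S0) (eta S1) b R 0 0 p r ∧
      Mut D R R1 (eta R) (eta R1) := by
  have hco := (W.mco ℤ P L phi D S0 S1 _ _ fp.dd.inj fp.dd.bin m).2.1
  have hA1 : ∀ T, Ray D T →
      (eta T : RO ℤ) * D.coeff T ≠ (1 - la) * ((eta S1 : RO ℤ) * D.coeff S1) := by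
    intro T hT
    rw [hco]
    exact hA T hT
  by_contra hcon
  push Not at hcon
  let T0 : L → Prop := fun T => Ray D T ∧ Out phi S0 S1 T ∧
    ∃ p r, Kt D S0 S1 (eta S0) (eta S1) b T 0 0 p r
  let Xs : L → Prop := fun T => T0 T ∧ (nu T ≠ 0 ∨
    ∃ T1, T0 T1 ∧ nu T1 ≠ 0 ∧ T ∉ US (eta T1) T1 D)
  -- rays outside `U_T`, `T` moved of type `(0,0)`
  have step : ∀ T, T0 T → nu T ≠ 0 → ∀ T', Ray D T' → T' ∉ US (eta T) T D → T0 T' := by
    rintro T ⟨hT, ho, p, r, kt⟩ hn T' hT' hU
    obtain ⟨z1, z2, z3, -⟩ := kt.z0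
    have hU0 := p4 W fp hT m.r0 (fun q => (ho q).imp id And.left) z1 z2 (hA T hT)
    have hU1 := p4 W fp hT m.r1 (fun q => (ho q).imp id And.right) z1 z3 (hA1 T hT)
    obtain ⟨hdis, ho', i, j, p', r', kt'⟩ := killed W fp m hk hT hn ho hU0 hU1 hT' hU
    have hTu0 : T ∈ US (eta S0) S0 D := by
      have := kt.u0'
      rwa [zero_smul, add_zero] at this
    have hTu1 : T ∈ US (eta S1) S1 D := by
      have := kt.u1'
      rwa [zero_smul, add_zero] at this
    rcases Nat.le_one_iff_eq_zero_or_eq_one.mp kt'.nf.j1 with hj | hj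
    · rcases Nat.le_one_iff_eq_zero_or_eq_one.mp kt'.nf.i1 with hi | hi
      · rw [hi, hj] at kt'
        exact ⟨hT', ho', p', r', kt'⟩
      · exfalso
        have hT'U : T' ∉ US (eta S1) S1 D := by
          intro h
          apply m.m1
          have h1 := Submodule.sub_mem _ kt'.u1' h
          rwa [hi, one_smul, add_sub_cancel_left] at h1
        obtain ⟨m', -⟩ := hS1.mut W fp hT' hT'U
        have h1 := partner0 W fp hT (fun q => (ho q).imp id And.right) z1 z3 hTu1 hT' hdis hU m'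
          (hA1 T hT)
        exact hcon T T' p r ho kt ⟨hT, hT', hU, h1⟩
    · exfalso
      have hT'U : T' ∉ US (eta S0) S0 D := by
        intro h
        apply m.m0
        have h1 := Submodule.sub_mem _ kt'.u0' h
        rwa [hj, one_smul, add_sub_cancel_left] at h1
      obtain ⟨m', -⟩ := hS0.mut W fp hT' hT'U
      have h1 := partner0 W fp hT (fun q => (ho q).imp id And.left) z1 z2 hTu0 hT' hdis hU m'
        (hA T hT)
      exact hcon T T' p r ho kt ⟨hT, hT', hU, h1⟩
  have nomut : ∀ T, T0 T → ∀ T', Ray D T' → T' ∉ US (eta T) T D → T ∈ US (eta T') T' D := by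
    rintro T ⟨hT, ho, p, r, kt⟩ T' hT' hU
    by_contra h
    exact hcon T T' p r ho kt ⟨hT, hT', hU, h⟩
  -- ascent
  have asc : ∀ T, Xs T → ∃ T', Xs T' ∧
      Module.finrank ℤ (US (eta T) T D) < Module.finrank ℤ (US (eta T') T' D) := by
    rintro T ⟨h0, h1⟩
    by_cases hn : nu T ≠ 0
    · obtain ⟨T', hT', hU⟩ := hall T h0.1
      exact ⟨T', ⟨step T h0 hn T' hT' hU, Or.inr ⟨T, h0, hn, hU⟩⟩,
        (incl' W fp h0.1 hT' hU (nomut T h0 T' hT' hU)).2⟩
    · obtain ⟨T1, h2, hn1, hU1⟩ := h1.resolve_left hn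
      have h3 := (incl' W fp h2.1 h0.1 hU1 (nomut T1 h2 T h0.1 hU1)).1
      obtain ⟨T', hT', hU⟩ := hall T h0.1
      have hU' : T' ∉ US (eta T1) T1 D := fun h => hU (h3 h)
      exact ⟨T', ⟨step T1 h2 hn1 T' hT' hU', Or.inr ⟨T1, h2, hn1, hU'⟩⟩,
        (incl' W fp h0.1 hT' hU (nomut T h0 T' hT' hU)).2⟩
  obtain ⟨R, p, r, hR, hn, ho, kt⟩ := hmov
  have hX : Xs R := ⟨⟨hR, ho, p, r, kt⟩, Or.inl hn⟩
  have hbig : ∀ n : ℕ, ∃ T, Xs T ∧ n ≤ Module.finrank ℤ (US (eta T) T D) := by
    intro n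
    induction n with
    | zero => exact ⟨R, hX, Nat.zero_le _⟩
    | succ n ih =>
      obtain ⟨T, h1, h2⟩ := ih
      obtain ⟨T', h3, h4⟩ := asc T h1
      exact ⟨T', h3, by omega⟩
  obtain ⟨T, -, h1⟩ := hbig (Module.finrank ℤ L + 1)
  have h2 := Submodule.finrank_le (US (eta T) T D)
  omega

end

end Pool.Agent.B5.KV
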