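import Pool.Agent.Lib.MP_b5021c_nt.IfaceKV
import Pool.Agent.Lib.MP_b5021c_nt.KV.H96.Par

/-!
# MP_b5021c_nt, all `θ`, K EVEN, route V: row KV_VDF (and KV_PAT, KV_P4, KV_PAR, KV_SGN)
-/

namespace Pool.Agent.B5.KV

open scoped LaurentPolynomial
open Polynomial
open Pool.Agent.B5.H07 (US_sat mem_US)
open Pool.Agent.B5.KE (Cex MutPkg)

theorem ta_tA : ta true = tA := by
  apply Units.ext
  rw [ta_t]
  unfold tA
  rw [H40.uT_val]
  simp

theorem ta_tC : ta false = tC := by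
  apply Units.ext
  rw [ta_f]
  unfold tC
  rw [H40.uT_val]
  simp

section

variable {P L : Type} [Fintype P] [DecidableEq P] [AddCommGroup L] [Module.Free ℤ L]
  [Module.Finite ℤ L] {phi : L →+ (P → ℤ)} {D : AO ℤ L} {q : ℤ[X]} {a : ℝ} {j : ℕ}
  {F : L → ℤ[X]} {e : L → (RO ℤ)ˣ}

/-- A maximal ray exists. -/
theorem mx_ex (W : Rws) (fp : FP phi D) (h2 : 2 ≤ Module.finrank ℤ L) (eta : L → (RO ℤ)ˣ) :
    ∃ S, Mx D eta S := by
  classical
  obtain ⟨-, -, -, -, hrk, -⟩ := W.e2 ℤ P L phi D fp.dd h2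
  have hne : ∃ S, Ray D S := by
    by_contra hcon
    push Not at hcon
    have h1 : {b | Ray D b} = (∅ : Set L) := by
      ext x
      simp [hcon x]
    rw [h1] at hrk
    have h3 : rk (∅ : Set L) = 0 := by
      unfold rk
      rw [Submodule.span_empty, finrank_bot]
    omega
  obtain ⟨S0, hS0⟩ := hne
  obtain ⟨⟨S, hS⟩, -, hmin⟩ := (measure fun S : {S // Ray D S} =>
    Module.finrank ℤ L - Module.finrank ℤ (US (eta S) (S : L) D)).wf.has_min Set.univ
      ⟨⟨S0, hS0⟩, trivial⟩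
  refine ⟨S, hS, fun T hT => ?_⟩
  have h1 := hmin ⟨T, hT⟩ trivial
  have h3 := Submodule.finrank_le (US (eta T) T D)
  have h4 := Submodule.finrank_le (US (eta S) S D)
  simp only [measure, invImage, InvImage, WellFoundedRelation.rel] at h1
  change ¬ (Module.finrank ℤ L - Module.finrank ℤ (US (eta T) T D) <
    Module.finrank ℤ L - Module.finrank ℤ (US (eta S) S D)) at h1
  omega

/-- `bl e S * D_S = X f`. -/
theorem bl_S (H : Kd phi D q a j F e) {S : L} (hS : Ray D S) :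
    ((bl e S : (RO ℤ)ˣ) : RO ℤ) * D.coeff S = toLaurent (X * F S) := by
  have h1 := KE.ld_S (H.rn S hS) 1
  rw [pow_one] at h1
  exact h1

/-- The apex of the closing. -/
theorem apex (W : Rws) (H : Kd phi D q a j F e) {S0 S1 : L} (m : Mut D S0 S1 (bl e S0) (bl e S1))
    (b : Bool) : cs D S0 S1 (bl e S0 * ta b) (bl e S1 * ta (!b)) 0 ≠ 0 := by
  obtain ⟨-, h1, h2, -⟩ := W.mco ℤ P L phi D S0 S1 _ _ H.cex.fp.dd.inj H.cex.fp.dd.bin m
  have h3 := bl_S H m.r0
  have hp := H.pkg S0 S1 m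
  have e1 : cs D S0 S1 (bl e S0 * ta b) (bl e S1 * ta (!b)) 0 =
      toLaurent q + (1 - la) * toLaurent (X * F S0) := by
    rw [cs, Units.val_mul, Units.val_mul, zero_add, zero_add, H.cex.h0, ← h3]
    linear_combination (ta (!b) : RO ℤ) * h1 +
      (ta b : RO ℤ) * (ta (!b) : RO ℤ) * h2 +
      (-((bl e S0 : RO ℤ) * D.coeff S0)) * ta_mul b + ((bl e S0 : RO ℤ) * D.coeff S0) * ta_add b
  rw [e1]
  intro h4
  have h5 : (toLaurent (q + (X - 1 + X ^ 2) * F S0) : RO ℤ) = 0 := by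
    rw [← h4, map_add, map_mul, map_mul, map_add, map_sub, map_pow, toLaurent_X, map_one, la]
    have := TT
    linear_combination ((toLaurent (F S0) : RO ℤ)) * this
  rw [toLaurent_eq_zero] at h5
  have h6 : (q + (X - 1 + X ^ 2) * F S0).coeff 1 = 0 := by rw [h5, coeff_zero]
  have h7 : (q + (X - 1 + X ^ 2) * F S0).coeff 1 =
      q.coeff 1 + (F S0).coeff 0 - (F S0).coeff 1 := by
    have h8 : (X - 1 + X ^ 2 : ℤ[X]) * F S0 = X * F S0 - F S0 + X * (X * F S0) := by ring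
    rw [h8, coeff_add, coeff_add, coeff_sub, coeff_X_mul, coeff_X_mul, coeff_X_mul_zero]
    ring
  rw [h7, hp.u] at h6
  have h9 := hp.n
  have h10 := H.cex.hj
  have h11 : (j : ℤ) = 1 := by linarith
  omega

/-- `bl e T * D_T ≠ (1 - la) * A`. -/
theorem hA (H : Kd phi D q a j F e) {S0 T : L} (hS : Ray D S0) (hT : Ray D T) :
    (bl e T : RO ℤ) * D.coeff T ≠ (1 - la) * ((bl e S0 : RO ℤ) * D.coeff S0) := by
  rw [bl_S H hT, bl_S H hS]
  intro h
  have h5 : (toLaurent (X * F T) : RO ℤ) = toLaurent ((X - 1 + X ^ 2) * F S0) := by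
    rw [h, map_mul, map_mul, map_add, map_sub, map_pow, toLaurent_X, map_one, la]
    have := TT
    linear_combination (-(toLaurent (F S0) : RO ℤ)) * this
  have h6 := toLaurent_injective h5
  have h7 := congrArg (fun p : ℤ[X] => p.coeff 0) h6
  simp only [coeff_X_mul_zero, mul_coeff_zero, coeff_add, coeff_sub, coeff_X_zero, coeff_one_zero,
    coeff_X_pow] at h7
  have h8 := (H.rn S0 hS).u
  norm_num at h7
  omega

/-- No small factors at the maximal rays. -/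
theorem nosm (W : Rws) (hSf : SfzS) (hFD : FDS) (hClp : ClpS) (H : Kd phi D q a j F e) {S : L}
    (hS : Mx D (bl e) S) : NoSm phi D S (bl e S) := by
  intro i0 h c n G fd i
  obtain ⟨T, hT, hTU⟩ := H.bad S hS.ray
  obtain ⟨m, -⟩ := hS.mut W H.cex.fp hT hTU
  have hp := H.pkg S T m
  obtain ⟨hs, -⟩ := KE.sf_kill hSf (k := 1) (H.rn S hS.ray) (le_refl 1) (fun _ => hp.u) H.cex.fp fd
    H.cex.hj H.cex.fr H.cex.ha H.cex.win H.cex.ih (Or.inr ⟨T, _, m⟩)
  exact KE.all_big hClp H.cex.fp fd hs i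

/-- The functional of a neighbour. -/
theorem nfun (W : Rws) (hSf : SfzS) (hFD : FDS) (hClp : ClpS) (hGlc : GlcS) (hNbr : NbrS)
    (hFou : FouS) (H : Kd phi D q a j F e) {S S1 : L} (hS : Mx D (bl e) S)
    (m : Mut D S S1 (bl e S) (bl e S1)) : ∃ nu : L →+ ℤ, (∀ a ∈ US (bl e S) S D, nu a = 0) ∧
      nu S1 = -1 ∧ ∀ T, Ray D T → T ≠ S1 → 0 ≤ nu T := by
  have fp := H.cex.fp
  have h2 : 2 ≤ Module.finrank ℤ L := by
    rw [H.cex.fr]
    have := H.cex.hj
    omega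
  have hle := Submodule.finrank_le (US (bl e S) S D)
  obtain ⟨g, hg⟩ : ∃ g, Module.finrank ℤ (US (bl e S) S D) + g = Module.finrank ℤ L :=
    ⟨Module.finrank ℤ L - Module.finrank ℤ (US (bl e S) S D), by omega⟩
  have hg1 : 1 ≤ g := by
    by_contra hcon
    apply m.m0
    apply KE.US_top
    omega
  have hmax : ∀ S', Mx D (bl e) S' → Module.finrank ℤ (US (bl e S') S' D) + g =
      Module.finrank ℤ L := by
    intro S' hS'
    have h3 := hS.max S' hS'.ray
    have h4 := hS'.max S hS.ray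
    omega
  have hC : ASet phi D (bl e) g {S | Mx D (bl e) S} := by
    refine ⟨fun S' hS' => hS'.ray, fun S' hS' => ?_, fun S' hS' => nosm W hSf hFD hClp H hS',
      hmax, fun S' hS' T hT hTU => ?_⟩
    · exact KE.V0_ne (H.rn S' hS'.ray) (k := 1) (le_refl 1)
    · obtain ⟨h3, h4⟩ := hS'.mut W fp hT hTU
      exact ⟨h4, h3⟩
  have hgle := hGlc ℤ P L phi D (bl e) g a⁻¹ _ H.min h2 hC ⟨S, hS⟩
  have hg12 : g = 1 ∨ g = 2 := by omega
  rcases hg12 with rfl | rfl
  · obtain ⟨mu, R, T, hmu, -, -, hR, hT, hoth, -⟩ := hNbr ℤ P L phi D (bl e) a⁻¹ _ H.min h2 hC S hS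
    have hS1 : mu S1 ≠ 0 := fun h => m.m0 ((hmu S1).mpr h)
    by_cases h3 : S1 = T
    · refine ⟨mu, fun a ha => (hmu a).mp ha, by rw [h3, hT], fun T' hT' hne => ?_⟩
      by_cases h4 : T' = R
      · rw [h4, hR]
        norm_num
      · rw [hoth T' hT' h4 (by rw [← h3]; exact hne)]
    · have h4 : S1 = R := by
        by_contra h5
        exact hS1 (hoth S1 m.r1 h5 h3)
      refine ⟨-mu, fun a ha => ?_, ?_, fun T' hT' hne => ?_⟩
      · rw [AddMonoidHom.neg_apply, (hmu a).mp ha, neg_zero]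
      · rw [AddMonoidHom.neg_apply, h4, hR]
      · rw [AddMonoidHom.neg_apply]
        by_cases h5 : T' = T
        · rw [h5, hT]
          norm_num
        · rw [hoth T' hT' (by rw [← h4]; exact hne) h5, neg_zero]
  · obtain ⟨Z, dl, hF, hZ0, -⟩ := hFou ℤ P L phi D (bl e) a⁻¹ _ H.min h2 hC S hS
    obtain ⟨l, hl⟩ : ∃ l, S1 = Z l := by
      by_contra hcon
      push Not at hcon
      apply m.m0
      rw [← hZ0, hF.us 0 S1]
      intro i k _ _
      exact hF.oth i k S1 m.r1 (hcon i) (hcon k)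
    have hl0 : l ≠ 0 := by
      rintro rfl
      apply m.m0
      rw [hl, hZ0]
      exact mem_US _ _ _
    obtain ⟨k, hk0, hkl⟩ : ∃ k : Fin 4, k ≠ 0 ∧ k ≠ l := by
      by_cases h3 : l = 1
      · exact ⟨2, by decide, by rw [h3]; decide⟩
      · exact ⟨1, by decide, Ne.symm h3⟩
    refine ⟨dl k l, fun a ha => ?_, by rw [hl]; exact hF.neg k l hkl, fun T' hT' hne => ?_⟩
    · rw [← hZ0, hF.us 0 a] at ha
      exact ha k l hk0 hl0
    · by_cases h4 : T' = Z k
      · rw [h4, hF.pos k l hkl]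
        norm_num
      · rw [hF.oth k l T' hT' h4 (by rw [← hl]; exact hne)]

/-- Maximal mutual pairs are `Kpr`. -/
theorem kpr (W : Rws) (hSf : SfzS) (hFD : FDS) (hClp : ClpS) (hGlc : GlcS) (hNbr : NbrS)
    (hFou : FouS) (H : Kd phi D q a j F e) {S S1 : L} (hS : Mx D (bl e) S)
    (m : Mut D S S1 (bl e S) (bl e S1)) : Kpr D (bl e) S S1 := by
  have hS1 := (hS.mut W H.cex.fp m.r1 m.m0).2
  exact ⟨m, fun T hT hTU => (hS.mut W H.cex.fp hT hTU).1,
    fun T hT hTU => (hS1.mut W H.cex.fp hT hTU).1, nfun W hSf hFD hClp hGlc hNbr hFou H hS m,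
    nfun W hSf hFD hClp hGlc hNbr hFou H hS1 (Mut.symm m)⟩

end

/-- (KV_VDF) -/
theorem kvd (W : Rws) (hSf : SfzS) (hFD : FDS) (hClp : ClpS) (hGlc : GlcS) (hNbr : NbrS)
    (hFou : FouS) (hKh : KvhS) (hKe : KveS) : KvdS := by
  intro P L _ _ _ _ _ phi D q a j F e H
  have fp := H.cex.fp
  have h2 : 2 ≤ Module.finrank ℤ L := by
    rw [H.cex.fr]
    have := H.cex.hj
    omega
  obtain ⟨S, hS⟩ := mx_ex W fp h2 (bl e)
  obtain ⟨S0, S1, h0, h1, m, hcase⟩ := vdf W fp h2 hS (H.bad S hS.ray)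
    (fun S0 S1 _ m b => apex W H m b)
  refine ⟨S0, S1, m, ?_⟩
  rw [← ta_tA, ← ta_tC]
  rcases hcase with h | ⟨nu, R, p, r, hk, hR, hn, ho, kt⟩
  · exact h
  · exfalso
    obtain ⟨R, R1, p, r, ho, kt, mR⟩ := par W fp h0 h1 m (fun T hT => H.bad T hT)
      (fun T hT => hA H m.r0 hT) (b := true) hk ⟨R, p, r, hR, hn, ho, kt⟩
    obtain ⟨z1, z2, z3, z4⟩ := kt.z0
    have hT : T00 phi D (bl e) S0 S1 R r := by
      refine ⟨mR.r0, ho, ?_, ?_, kt.r0, ?_, z2, z3, z4⟩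
      · have := kt.u0'
        rwa [zero_smul, add_zero] at this
      · have := kt.u1'
        rwa [zero_smul, add_zero] at this
      · rw [z1, la]
        ring
    obtain ⟨Q, K, _, _, _, _, _, psi, G, R', er, u, E, rho, hh⟩ := hKh P L phi D q a j F e S0 S1 R
      R1 r H (kpr W hSf hFD hClp hGlc hNbr hFou H h0 m) hT mR
    exact hKe Q K psi G R' er u (F S0) E rho j hh

end Pool.Agent.B5.KV
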