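import Pool.Agent.Lib.MP_b5021c_nt.IfaceAM
import Pool.Agent.Lib.MP_b5021c_nt.H47.Mut
import Pool.Agent.Lib.MP_b5021c_nt.KE.H96.Ray

/-!
# MP_b5021c_nt, all `θ`, K EVEN, route V: killed classes of the double closing `(-1/z, z)`

`S0`, `S1` mutual with the loads `e0`, `e1`.  Orientation `true`: `w^S0 = e0 (-1/z)`,
`w^S1 = e1 z`; orientation `false`: `w^S0 = e0 z`, `w^S1 = e1 (-1/z)`.
-/

namespace Pool.Agent.B5.KV

open scoped LaurentPolynomial

/-- The loads. -/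
noncomputable def ta (b : Bool) : (RO ℤ)ˣ := if b then H47.ux ℤ else H47.uz ℤ

/-- `1/z - z`. -/
noncomputable def la : RO ℤ := LaurentPolynomial.T (-1) - LaurentPolynomial.T 1

theorem TT : (LaurentPolynomial.T (-1) : RO ℤ) * LaurentPolynomial.T 1 = 1 := by
  rw [← LaurentPolynomial.T_add]; simp

theorem ta_t : ((ta true : (RO ℤ)ˣ) : RO ℤ) = -LaurentPolynomial.T (-1) := rfl

theorem ta_f : ((ta false : (RO ℤ)ˣ) : RO ℤ) = LaurentPolynomial.T 1 := rfl

theorem ta_mul (b : Bool) : ((ta b : (RO ℤ)ˣ) : RO ℤ) * (ta (!b) : (RO ℤ)ˣ) = -1 := by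
  have h := TT
  cases b
  · change ((ta false : (RO ℤ)ˣ) : RO ℤ) * (ta true : (RO ℤ)ˣ) = -1
    rw [ta_t, ta_f]
    linear_combination -h
  · change ((ta true : (RO ℤ)ˣ) : RO ℤ) * (ta false : (RO ℤ)ˣ) = -1
    rw [ta_t, ta_f]
    linear_combination -h

theorem ta_add (b : Bool) : ((ta b : (RO ℤ)ˣ) : RO ℤ) + (ta (!b) : (RO ℤ)ˣ) = -la := by
  cases b
  · change ((ta false : (RO ℤ)ˣ) : RO ℤ) + (ta true : (RO ℤ)ˣ) = -la
    rw [ta_t, ta_f, la]
    ring
  · change ((ta true : (RO ℤ)ˣ) : RO ℤ) + (ta false : (RO ℤ)ˣ) = -la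
    rw [ta_t, ta_f, la]
    ring

theorem ta_la (b : Bool) :
    (1 - ((ta b : (RO ℤ)ˣ) : RO ℤ)) * (1 - ((ta (!b) : (RO ℤ)ˣ) : RO ℤ)) = la := by
  linear_combination ta_mul b - ta_add b

theorem ta_tf : ((ta true : (RO ℤ)ˣ) : RO ℤ) ≠ (ta false : (RO ℤ)ˣ) := by
  rw [ta_t, ta_f]
  intro h
  have h1 := congrArg (fun p : RO ℤ => p.coeff 1) h
  simp [LaurentPolynomial.T_apply] at h1

theorem ta_ne (b : Bool) : ((ta b : (RO ℤ)ˣ) : RO ℤ) ≠ (ta (!b) : (RO ℤ)ˣ) := by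
  cases b
  · exact fun h => ta_tf h.symm
  · exact ta_tf

theorem la_ne : la ≠ 0 := by
  intro h
  have h1 := congrArg (fun p : RO ℤ => p.coeff 1) h
  simp [la, LaurentPolynomial.T_apply] at h1

theorem one_sub_la : (1 : RO ℤ) - la ≠ 0 := by
  intro h
  have h2 : la = LaurentPolynomial.T 0 := by
    rw [LaurentPolynomial.T_zero]
    linear_combination -h
  have h1 := congrArg (fun p : RO ℤ => p.coeff 1) h2
  simp only [la, AddMonoidAlgebra.coeff_sub, Finsupp.sub_apply, LaurentPolynomial.T_apply] at h1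
  norm_num at h1

theorem one_add_la : (1 : RO ℤ) + la ≠ 0 := by
  intro h
  have h2 : -la = LaurentPolynomial.T 0 := by
    rw [LaurentPolynomial.T_zero]
    linear_combination -h
  have h1 := congrArg (fun p : RO ℤ => p.coeff 1) h2
  simp only [la, AddMonoidAlgebra.coeff_neg, Finsupp.neg_apply, AddMonoidAlgebra.coeff_sub,
    Finsupp.sub_apply, LaurentPolynomial.T_apply] at h1
  norm_num at h1

theorem ta_ne_la (b : Bool) : ((ta b : (RO ℤ)ˣ) : RO ℤ) ≠ -la := by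
  intro h
  have h1 := ta_add b
  rw [h] at h1
  have h2 : ((ta (!b) : (RO ℤ)ˣ) : RO ℤ) = 0 := by linear_combination h1
  exact (ta (!b)).ne_zero h2

section

variable {P L : Type} [Fintype P] [DecidableEq P] [AddCommGroup L] [Module.Free ℤ L]
  [Module.Finite ℤ L] {phi : L →+ (P → ℤ)} {D : AO ℤ L}

/-- The sum over the class of `a`. -/
noncomputable def cs (D : AO ℤ L) (S0 S1 : L) (u0 u1 : (RO ℤ)ˣ) (a : L) : RO ℤ :=
  D.coeff a + (u0 : RO ℤ) * D.coeff (a + S0) + (u1 : RO ℤ) * D.coeff (a + S1) +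
    (u0 : RO ℤ) * (u1 : RO ℤ) * D.coeff (a + S0 + S1)

/-- One of the four coefficients is not zero. -/
def Nz (D : AO ℤ L) (S0 S1 a : L) : Prop :=
  D.coeff a ≠ 0 ∨ D.coeff (a + S0) ≠ 0 ∨ D.coeff (a + S1) ≠ 0 ∨ D.coeff (a + S0 + S1) ≠ 0

theorem cs_nf {S0 S1 : L} {e0 e1 : (RO ℤ)ˣ} {a : L} {i j : ℕ} {p r : RO ℤ}
    (h : Nf D S0 S1 e0 e1 a i j p r) (t0 t1 : (RO ℤ)ˣ) :
    cs D S0 S1 (e0 * t0) (e1 * t1) a = p * (t0 : RO ℤ) ^ i * (t1 : RO ℤ) ^ j +
      (1 - (t0 : RO ℤ)) * (1 - (t1 : RO ℤ)) * r := by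
  have e : cs D S0 S1 (e0 * t0) (e1 * t1) a = D.coeff a +
      (t0 : RO ℤ) * ((e0 : RO ℤ) * D.coeff (a + S0)) +
      (t1 : RO ℤ) * ((e1 : RO ℤ) * D.coeff (a + S1)) +
      (t0 : RO ℤ) * (t1 : RO ℤ) * ((e0 : RO ℤ) * (e1 : RO ℤ) * D.coeff (a + S0 + S1)) := by
    rw [cs, Units.val_mul, Units.val_mul]
    ring
  rw [e, h.c00, h.c10, h.c01, h.c11]
  rcases Nat.le_one_iff_eq_zero_or_eq_one.mp h.i1 with rfl | rfl <;>
    rcases Nat.le_one_iff_eq_zero_or_eq_one.mp h.j1 with rfl | rfl <;> simp <;> ring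

/-- A killed class of type `(i,j)`, orientation `b`. -/
structure Kt (D : AO ℤ L) (S0 S1 : L) (e0 e1 : (RO ℤ)ˣ) (b : Bool) (a : L) (i j : ℕ)
    (p r : RO ℤ) : Prop where
  nf : Nf D S0 S1 e0 e1 a i j p r
  p0 : p ≠ 0
  r0 : r ≠ 0
  th : p * (ta b : RO ℤ) ^ i * (ta (!b) : RO ℤ) ^ j = -(la * r)
  u0 : a + i • S0 + j • S1 ∈ US e0 S0 D
  u1 : a + i • S0 + j • S1 ∈ US e1 S1 D

theorem kt_of (hMnf : MnfS) {S0 S1 : L} {e0 e1 : (RO ℤ)ˣ} {b : Bool} {a : L}
    (inj : Function.Injective phi) (bin : ∀ a ∈ supp D, Bin phi a) (hM : Mut D S0 S1 e0 e1)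
    (ha : Out phi S0 S1 a) (hc : cs D S0 S1 (e0 * ta b) (e1 * ta (!b)) a = 0)
    (hz : Nz D S0 S1 a) : ∃ (i j : ℕ) (p r : RO ℤ), Kt D S0 S1 e0 e1 b a i j p r := by
  obtain ⟨i, j, p, r, hn, hu⟩ := hMnf ℤ P L phi D S0 S1 e0 e1 inj bin hM a ha
  rw [cs_nf hn, ta_la] at hc
  have hr : r ≠ 0 := by
    rintro rfl
    have hp : p = 0 := by
      rw [mul_zero, add_zero] at hc
      have h1 := (mul_eq_zero.mp hc).resolve_right (pow_ne_zero _ (ta (!b)).ne_zero)
      exact (mul_eq_zero.mp h1).resolve_right (pow_ne_zero _ (ta b).ne_zero)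
    subst hp
    have h0 := hn.c00
    have h1 := hn.c10
    have h2 := hn.c01
    have h3 := hn.c11
    simp only [ite_self, add_zero, sub_zero] at h0 h1 h2 h3
    rcases hz with h | h | h | h
    · exact h h0
    · exact h ((mul_eq_zero.mp h1).resolve_left e0.ne_zero)
    · exact h ((mul_eq_zero.mp h2).resolve_left e1.ne_zero)
    · exact h ((mul_eq_zero.mp h3).resolve_left (mul_ne_zero e0.ne_zero e1.ne_zero))
  have hp : p ≠ 0 := by
    rintro rfl
    rw [zero_mul, zero_mul, zero_add] at hc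
    exact (mul_ne_zero la_ne hr) hc
  exact ⟨i, j, p, r, hn, hp, hr, by linear_combination hc, (hu hp).1, (hu hp).2⟩

section kt

variable {S0 S1 : L} {e0 e1 : (RO ℤ)ˣ} {b : Bool} {a : L} {i j : ℕ} {p r : RO ℤ}

/-- Killed in both orientations: type `(0,0)` or `(1,1)`. -/
theorem Kt.both (h : Kt D S0 S1 e0 e1 b a i j p r)
    (hc : cs D S0 S1 (e0 * ta (!b)) (e1 * ta b) a = 0) : i = j := by
  rw [cs_nf h.nf, mul_comm (1 - _) (1 - _), ta_la] at hc
  have h1 : p * ((ta b : RO ℤ) ^ i * (ta (!b) : RO ℤ) ^ j) =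
      p * ((ta (!b) : RO ℤ) ^ i * (ta b : RO ℤ) ^ j) := by
    linear_combination h.th - hc
  have h2 := mul_left_cancel₀ h.p0 h1
  rcases Nat.le_one_iff_eq_zero_or_eq_one.mp h.nf.i1 with hi | hi <;>
    rcases Nat.le_one_iff_eq_zero_or_eq_one.mp h.nf.j1 with hj | hj
  · rw [hi, hj]
  · rw [hi, hj, pow_zero, pow_one, one_mul, pow_zero, pow_one, one_mul] at h2
    exact absurd h2.symm (ta_ne b)
  · rw [hi, hj, pow_zero, pow_one, mul_one, pow_zero, pow_one, mul_one] at h2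
    exact absurd h2 (ta_ne b)
  · rw [hi, hj]

theorem Kt.c00 (h : Kt D S0 S1 e0 e1 b a i j p r) : D.coeff a ≠ 0 := by
  rw [h.nf.c00]
  by_cases hij : i = 0 ∧ j = 0
  · rw [if_pos hij]
    have h1 := h.th
    rw [hij.1, hij.2, pow_zero, pow_zero, mul_one, mul_one] at h1
    rw [h1]
    have h2 : -(la * r) + r = (1 - la) * r := by ring
    rw [h2]
    exact mul_ne_zero one_sub_la h.r0
  · rw [if_neg hij, zero_add]
    exact h.r0

theorem Kt.c11 (h : Kt D S0 S1 e0 e1 b a i j p r) : D.coeff (a + S0 + S1) ≠ 0 := by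
  have h1 : (e0 : RO ℤ) * (e1 : RO ℤ) * D.coeff (a + S0 + S1) ≠ 0 := by
    rw [h.nf.c11]
    by_cases hij : i = 1 ∧ j = 1
    · rw [if_pos hij]
      have h1 := h.th
      rw [hij.1, hij.2, pow_one, pow_one, mul_assoc, ta_mul] at h1
      have h2 : p + r = (1 + la) * r := by linear_combination -h1
      rw [h2]
      exact mul_ne_zero one_add_la h.r0
    · rw [if_neg hij, zero_add]
      exact h.r0
  exact fun h2 => h1 (by rw [h2, mul_zero])

theorem Kt.c10 (h : Kt D S0 S1 e0 e1 b a i j p r) : D.coeff (a + S0) ≠ 0 := by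
  have h1 : (e0 : RO ℤ) * D.coeff (a + S0) ≠ 0 := by
    rw [h.nf.c10]
    by_cases hij : i = 1 ∧ j = 0
    · rw [if_pos hij]
      have h1 := h.th
      rw [hij.1, hij.2, pow_one, pow_zero, mul_one] at h1
      intro h2
      have h3 : p = r := by linear_combination h2
      rw [h3] at h1
      apply ta_ne_la b
      apply mul_left_cancel₀ h.r0
      linear_combination h1
    · rw [if_neg hij, zero_sub]
      exact neg_ne_zero.mpr h.r0
  exact fun h2 => h1 (by rw [h2, mul_zero])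

theorem Kt.c01 (h : Kt D S0 S1 e0 e1 b a i j p r) : D.coeff (a + S1) ≠ 0 := by
  have h1 : (e1 : RO ℤ) * D.coeff (a + S1) ≠ 0 := by
    rw [h.nf.c01]
    by_cases hij : i = 0 ∧ j = 1
    · rw [if_pos hij]
      have h1 := h.th
      rw [hij.1, hij.2, pow_one, pow_zero, mul_one] at h1
      intro h2
      have h3 : p = r := by linear_combination h2
      rw [h3] at h1
      apply ta_ne_la (!b)
      apply mul_left_cancel₀ h.r0
      linear_combination h1
    · rw [if_neg hij, zero_sub]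
      exact neg_ne_zero.mpr h.r0
  exact fun h2 => h1 (by rw [h2, mul_zero])

end kt

/-- A ray moved by a killing functional is the base of its class. -/
theorem kt_ray (hMnf : MnfS) (hMpa : MpaS) {S0 S1 : L} {e0 e1 : (RO ℤ)ˣ} {b : Bool}
    {nu : L →+ ℤ} (inj : Function.Injective phi) (bin : ∀ a ∈ supp D, Bin phi a)
    (hM : Mut D S0 S1 e0 e1) (hk : Kil phi D S0 S1 (e0 * ta b) (e1 * ta (!b)) nu) {R : L}
    (hR : Ray D R) (hn : nu R ≠ 0) :
    Out phi S0 S1 R ∧ ∃ (i j : ℕ) (p r : RO ℤ), Kt D S0 S1 e0 e1 b R i j p r := by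
  rcases hMpa ℤ P L phi D S0 S1 e0 e1 inj bin hM R hR.1 with ⟨h1, -⟩ | ⟨-, a, p, q, hp, hq, ha, hRa⟩
  · exact absurd (hk.part R hR.1 h1) hn
  · have hna : nu a = nu R := by
      rw [hRa, map_add, map_add, map_nsmul, map_nsmul, hk.s0, hk.s1]
      simp
    have hz : Nz D S0 S1 a := by
      have h2 := hR.1
      change D.coeff R ≠ 0 at h2
      rw [hRa] at h2
      rcases Nat.le_one_iff_eq_zero_or_eq_one.mp hp with h3 | h3 <;>
        rcases Nat.le_one_iff_eq_zero_or_eq_one.mp hq with h4 | h4 <;>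
        rw [h3, h4] at h2 <;>
        simp only [zero_smul, one_smul, add_zero] at h2
      · exact Or.inl h2
      · exact Or.inr (Or.inr (Or.inl h2))
      · exact Or.inr (Or.inl h2)
      · exact Or.inr (Or.inr (Or.inr h2))
    obtain ⟨i, j, p', r, kt⟩ := kt_of hMnf inj bin hM ha (hk.free a ha (by rw [hna]; exact hn)) hz
    have haR : a = R := by
      by_contra hne
      obtain ⟨lam, hl0, hl⟩ := hR.2.2
      have ha0 : a ≠ 0 := by
        rintro rfl
        rw [map_zero] at hna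
        exact hn hna.symm
      have h3 := hl a kt.c00 ha0 hne
      have h4 : 0 < lam S0 := hl S0 hM.r0.1 hM.r0.2.1 (by rintro rfl; exact hn hk.s0)
      have h5 : 0 < lam S1 := hl S1 hM.r1.1 hM.r1.2.1 (by rintro rfl; exact hn hk.s1)
      rw [hRa, map_add, map_add, map_nsmul, map_nsmul] at hl0
      have h6 : (0 : ℤ) ≤ p • lam S0 := nsmul_nonneg h4.le p
      have h7 : (0 : ℤ) ≤ q • lam S1 := nsmul_nonneg h5.le q
      omega
    subst haR
    exact ⟨ha, i, j, p', r, kt⟩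

end

end Pool.Agent.B5.KV
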