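import Pool.Agent.Lib.MP_b5021c_nt.KV.H96.Kc
import Pool.Agent.Lib.MP_b5021c_nt.E.H07.Mxu
import Pool.Agent.Lib.MP_b5021c_nt.E.H07.Top

/-!
# MP_b5021c_nt, all `θ`, route V: maximal rays, the toggle, both signs
-/

namespace Pool.Agent.B5.KV

open scoped LaurentPolynomial
open Pool.Agent.B5.H07 (US_sat mem_US)

/-- The rows which are used. -/
structure Rws : Prop where
  f1 : F1S
  f2 : F2S
  f3 : F3S
  mxu : MxuS
  mnf : MnfS
  mpa : MpaS
  mco : McoS
  inj : Inj1S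
  top : TopS
  rsp : RaySpanS
  e2 : E2S
  rnk : RnkS

section

variable {P L : Type} [Fintype P] [DecidableEq P] [AddCommGroup L] [Module.Free ℤ L]
  [Module.Finite ℤ L] {phi : L →+ (P → ℤ)} {D : AO ℤ L}

/-- A ray with the largest `U`. -/
structure Mx (D : AO ℤ L) (eta : L → (RO ℤ)ˣ) (S : L) : Prop where
  ray : Ray D S
  max : ∀ T, Ray D T →
    Module.finrank ℤ (US (eta T) T D) ≤ Module.finrank ℤ (US (eta S) S D)

theorem Mx.mut (R : Rws) (fp : FP phi D) {eta : L → (RO ℤ)ˣ} {S : L} (hS : Mx D eta S) {T : L}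
    (hT : Ray D T) (hTU : T ∉ US (eta S) S D) :
    Mut D S T (eta S) (eta T) ∧ Mx D eta T := by
  obtain ⟨h1, h2, -⟩ := R.mxu ℤ P L phi D eta S fp.dd.inj fp.dd.bin hS.ray hS.max T hT hTU
  exact ⟨⟨hS.ray, hT, hTU, h1⟩, hT, fun T' hT' => by rw [h2]; exact hS.max T' hT'⟩

theorem Mut.symm {S0 S1 : L} {e0 e1 : (RO ℤ)ˣ} (h : Mut D S0 S1 e0 e1) : Mut D S1 S0 e1 e0 :=
  ⟨h.r1, h.r0, h.m1, h.m0⟩

/-- Ports of rays are not nested. -/
theorem nest (R : Rws) (fp : FP phi D) {S T : L} (hS : Ray D S) (hT : Ray D T)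
    (h : ∀ j, phi T j = 0 → phi S j = 0) : S = T := by
  obtain ⟨k, hk⟩ := (R.inj ℤ P L phi D fp T hT).1 S h
  obtain ⟨j, hj⟩ := KE.exists_port fp.dd hS
  have h1 : phi S j = 1 := hj
  rw [hk, map_zsmul, Pi.smul_apply, smul_eq_mul] at h1
  rcases fp.dd.bin T hT.1 j with h2 | h2
  · rw [h2, mul_zero] at h1
    omega
  · rw [h2, mul_one] at h1
    rw [hk, h1, one_smul]

/-- `x` outside `U_T` which does not contain `T`. -/
theorem f1use (R : Rws) (fp : FP phi D) {x T : L} {e : (RO ℤ)ˣ} (hT : Ray D T) (hx : x ∈ supp D)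
    (hxU : x ∉ US e T D) (hn : ¬ ∀ j, phi x j = 0 → phi T j = 0) :
    (∀ q, phi x q = 0 ∨ phi T q = 0) ∧ (e : RO ℤ) * D.coeff (x + T) = -D.coeff x := by
  obtain ⟨h1, h2⟩ := R.f1 ℤ P L phi D T e fp.dd.inj fp.dd.bin (fp.dd.bin T hT.1) hT.2.1 x hxU
  push Not at hn
  obtain ⟨j, hj1, hj2⟩ := hn
  have hdis : ∀ q, phi x q = 0 ∨ phi T q = 0 := by
    by_contra hcon
    push Not at hcon
    obtain ⟨i, hi1, hi2⟩ := hcon
    apply hx
    apply h1
    · exact ⟨i, ((fp.dd.bin x hx) i).resolve_left hi1,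
        ((fp.dd.bin T hT.1) i).resolve_left hi2⟩
    · exact ⟨j, hj1, ((fp.dd.bin T hT.1) j).resolve_left hj2⟩
  exact ⟨hdis, by linear_combination h2 hdis⟩

/-- The sum of two mutual rays is an exponent. -/
theorem sum_mem (R : Rws) (fp : FP phi D) {S0 S1 : L} {e0 e1 : (RO ℤ)ˣ}
    (m : Mut D S0 S1 e0 e1) : S0 + S1 ∈ supp D := by
  obtain ⟨-, -, h, -⟩ := R.mco ℤ P L phi D S0 S1 e0 e1 fp.dd.inj fp.dd.bin m
  intro h0
  rw [h0, mul_zero] at h
  have h1 : (e0 : RO ℤ) * D.coeff S0 = 0 := by linear_combination h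
  exact m.r0.1 ((mul_eq_zero.mp h1).resolve_left e0.ne_zero)

/-- Two rays which are mutual with `S0` and different are disjoint. -/
theorem out_mut (R : Rws) (fp : FP phi D) {S0 S1 T : L} {e0 e1 eT : (RO ℤ)ˣ}
    (m : Mut D S0 S1 e0 e1) (mT : Mut D S0 T e0 eT) (hne : T ≠ S1) : Out phi S0 S1 T := by
  have hd := (R.mco ℤ P L phi D S0 T e0 eT fp.dd.inj fp.dd.bin mT).1
  intro q
  by_contra hcon
  push Not at hcon
  obtain ⟨h1, h2⟩ := hcon
  have h3 : phi S1 q ≠ 0 := h2 ((hd q).resolve_right h1)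
  rcases R.mpa ℤ P L phi D S0 S1 e0 e1 fp.dd.inj fp.dd.bin m T mT.r1.1 with ⟨-, h4⟩ | ⟨h4, -⟩
  · have h5 := sum_mem R fp mT
    have h6 := h4 1 0 (by rw [one_smul, zero_smul, add_zero, add_comm]; exact h5)
    omega
  · apply hne
    symm
    apply nest R fp m.r1 mT.r1
    intro j hj
    by_contra h5
    apply h4
    right
    exact ⟨⟨q, (fp.dd.bin T mT.r1.1 q).resolve_left h1, (fp.dd.bin S1 m.r1.1 q).resolve_left h3⟩,
      j, hj, (fp.dd.bin S1 m.r1.1 j).resolve_left h5⟩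

/-- `2 x ∈ U` gives `x ∈ U`. -/
theorem two_mem {e : (RO ℤ)ˣ} {S x : L} (h : x + x ∈ US e S D) : x ∈ US e S D := by
  obtain ⟨n, hn, h1⟩ := h
  refine ⟨n * 2, mul_ne_zero hn two_ne_zero, ?_⟩
  rw [mul_smul]
  have h2 : (2 : ℤ) • x = x + x := two_zsmul x
  rw [h2]
  exact h1

section kt

variable {S0 S1 T R : L} {e0 e1 eT : (RO ℤ)ˣ} {b : Bool} {nu : L →+ ℤ} {i j : ℕ} {p r : RO ℤ}

/-- `R + j S1 ∈ U_0`. -/
theorem Kt.u0' (h : Kt D S0 S1 e0 e1 b R i j p r) : R + j • S1 ∈ US e0 S0 D := by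
  have h1 := Submodule.sub_mem _ h.u0 (Submodule.smul_of_tower_mem (US e0 S0 D) i (mem_US e0 S0 D))
  have h2 : R + i • S0 + j • S1 - i • S0 = R + j • S1 := by abel
  rwa [h2] at h1

/-- `R + i S0 ∈ U_1`. -/
theorem Kt.u1' (h : Kt D S0 S1 e0 e1 b R i j p r) : R + i • S0 ∈ US e1 S1 D := by
  have h1 := Submodule.sub_mem _ h.u1 (Submodule.smul_of_tower_mem (US e1 S1 D) j (mem_US e1 S1 D))
  rwa [add_sub_cancel_right] at h1

/-- THE TOGGLE. -/
theorem tog (W : Rws) (fp : FP phi D) (m : Mut D S0 S1 e0 e1) (mT : Mut D S0 T e0 eT)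
    (hne : T ≠ S1) (hk : Kil phi D S0 S1 (e0 * ta b) (e1 * ta (!b)) nu) (hR : Ray D R)
    (ho : Out phi S0 S1 R) (kR : Kt D S0 S1 e0 e1 b R i j p r) (hnR : nu R ≠ 0)
    (hnT : nu T = 0) :
    (∀ q, phi R q = 0 ∨ phi T q = 0) ∧ Out phi S0 S1 (R + T) ∧ Nz D S0 S1 (R + T) ∧
      ∃ (i' j' : ℕ) (p' r' : RO ℤ), Kt D S0 S1 e0 e1 b (R + T) i' j' p' r' ∧
        ((j = 1 ∧ j' = 0 ∧ T - S1 ∈ US e0 S0 D) ∨ (j = 0 ∧ j' = 1 ∧ T + S1 ∈ US e0 S0 D)) := by
  have oT := out_mut W fp m mT hne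
  have hRT : R ≠ T := by
    rintro rfl
    exact hnR hnT
  have hdT := (W.mco ℤ P L phi D S0 T e0 eT fp.dd.inj fp.dd.bin mT).1
  -- the exponent `x`
  obtain ⟨x, k, hk1, hxk, hxs, hxU⟩ : ∃ (x : L) (k : ℕ), k ≤ 1 ∧ x = R + k • S0 ∧ x ∈ supp D ∧
      x ∉ US eT T D := by
    by_cases h1 : R ∈ US eT T D
    · refine ⟨R + S0, 1, le_refl 1, by rw [one_smul], kR.c10, fun h2 => mT.m1 ?_⟩
      have h3 := Submodule.sub_mem _ h2 h1
      rwa [add_sub_cancel_left] at h3
    · exact ⟨R, 0, by norm_num, by rw [zero_smul, add_zero], kR.c00, h1⟩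
  obtain ⟨hxd, hxT⟩ := f1use W fp mT.r1 hxs hxU (by
    intro h
    apply hRT
    symm
    apply nest W fp mT.r1 hR
    intro q hq
    rcases hdT q with h1 | h1
    · apply h q
      rw [hxk, map_add, map_nsmul, Pi.add_apply, Pi.smul_apply, hq, h1]
      simp
    · exact h1)
  have hRd : ∀ q, phi R q = 0 ∨ phi T q = 0 := by
    intro q
    rcases hdT q with h1 | h1
    · rcases hxd q with h2 | h2
      · left
        rw [hxk, map_add, map_nsmul, Pi.add_apply, Pi.smul_apply, h1] at h2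
        simpa using h2
      · exact Or.inr h2
    · exact Or.inr h1
  have hout : Out phi S0 S1 (R + T) := by
    intro q
    rcases ho q with h1 | h1
    · rcases oT q with h2 | h2
      · left
        rw [map_add, Pi.add_apply, h1, h2, add_zero]
      · exact Or.inr h2
    · exact Or.inr h1
  have hnz : Nz D S0 S1 (R + T) := by
    have h1 : D.coeff (x + T) ≠ 0 := by
      intro h2
      rw [h2, mul_zero] at hxT
      exact hxs (neg_eq_zero.mp hxT.symm)
    rcases Nat.le_one_iff_eq_zero_or_eq_one.mp hk1 with h2 | h2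
    · left
      rw [hxk, h2, zero_smul, add_zero] at h1
      exact h1
    · right
      left
      rw [hxk, h2, one_smul] at h1
      rwa [add_right_comm] at h1
  have hcs : cs D S0 S1 (e0 * ta b) (e1 * ta (!b)) (R + T) = 0 := by
    refine hk.free (R + T) hout ?_
    rw [map_add, hnT, add_zero]
    exact hnR
  obtain ⟨i', j', p', r', kt⟩ := kt_of W.mnf fp.dd.inj fp.dd.bin m hout hcs hnz
  refine ⟨hRd, hout, hnz, i', j', p', r', kt, ?_⟩
  have u1 := kR.u0'
  have u2 := kt.u0'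
  have u3 := Submodule.sub_mem _ u2 u1
  rcases Nat.le_one_iff_eq_zero_or_eq_one.mp kR.nf.j1 with hj | hj <;>
    rcases Nat.le_one_iff_eq_zero_or_eq_one.mp kt.nf.j1 with hj' | hj'
  · exfalso
    rw [hj, hj'] at u3
    have h1 : R + T + 0 • S1 - (R + 0 • S1) = T := by abel
    rw [h1] at u3
    exact mT.m0 u3
  · right
    refine ⟨hj, hj', ?_⟩
    rw [hj, hj'] at u3
    have h1 : R + T + 1 • S1 - (R + 0 • S1) = T + S1 := by
      rw [one_smul, zero_smul, add_zero]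
      abel
    rwa [h1] at u3
  · left
    refine ⟨hj, hj', ?_⟩
    rw [hj, hj'] at u3
    have h1 : R + T + 0 • S1 - (R + 1 • S1) = T - S1 := by
      rw [one_smul, zero_smul, add_zero]
      abel
    rwa [h1] at u3
  · exfalso
    rw [hj, hj'] at u3
    have h1 : R + T + 1 • S1 - (R + 1 • S1) = T := by abel
    rw [h1] at u3
    exact mT.m0 u3

/-- A ray on the same side as `S1` is not moved. -/
theorem same_side (W : Rws) (fp : FP phi D) (m : Mut D S0 S1 e0 e1) (mT : Mut D S0 T e0 eT)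
    (hk : Kil phi D S0 S1 (e0 * ta b) (e1 * ta (!b)) nu) (hs : T - S1 ∈ US e0 S0 D) :
    nu T = 0 := by
  by_contra hn
  obtain ⟨-, i, j, p, r, kt⟩ := kt_ray W.mnf W.mpa fp.dd.inj fp.dd.bin m hk mT.r1 hn
  have u1 := kt.u0'
  rcases Nat.le_one_iff_eq_zero_or_eq_one.mp kt.nf.j1 with hj | hj
  · rw [hj, zero_smul, add_zero] at u1
    exact mT.m0 u1
  · rw [hj, one_smul] at u1
    apply mT.m0
    apply two_mem
    have h2 := Submodule.add_mem _ u1 hs
    have h1 : T + S1 + (T - S1) = T + T := by abel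
    rwa [h1] at h2

end kt

/-- A killing functional which is not zero moves rays of both signs. -/
theorem signs (W : Rws) (fp : FP phi D) (h2 : 2 ≤ Module.finrank ℤ L) {S0 S1 : L}
    {e0 e1 u0 u1 : (RO ℤ)ˣ} {nu : L →+ ℤ} (m : Mut D S0 S1 e0 e1)
    (hk : Kil phi D S0 S1 u0 u1 nu) (hnu : nu ≠ 0) (hap : cs D S0 S1 u0 u1 0 ≠ 0) :
    (∃ R, Ray D R ∧ 0 < nu R) ∧ ∃ R, Ray D R ∧ nu R < 0 := by
  classical
  obtain ⟨t, u, hrev, hport, -⟩ := W.top ℤ P L phi D fp.dd h2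
  have hdis := (W.mco ℤ P L phi D S0 S1 e0 e1 fp.dd.inj fp.dd.bin m).1
  have hpt : ∀ i, phi t i = 1 := fun i => hport i (fp.fac i).1
  have hout : Out phi S0 S1 (t - S0 - S1) := by
    intro q
    by_cases h1 : phi S0 q = 0
    · by_cases h3 : phi S1 q = 0
      · exact Or.inr ⟨h1, h3⟩
      · left
        rw [map_sub, map_sub, Pi.sub_apply, Pi.sub_apply, hpt, h1,
          (fp.dd.bin S1 m.r1.1 q).resolve_left h3]
        norm_num
    · left
      rw [map_sub, map_sub, Pi.sub_apply, Pi.sub_apply, hpt,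
        (fp.dd.bin S0 m.r0.1 q).resolve_left h1, (hdis q).resolve_left h1]
      norm_num
  have hcs : cs D S0 S1 u0 u1 (t - S0 - S1) = (u : RO ℤ) * (u0 : RO ℤ) * (u1 : RO ℤ) *
      rsh (cs D S0 S1 u0 u1 0) := by
    have e1' := Pool.Agent.B5.H24.rsh_unit u0
    have e2' := Pool.Agent.B5.H24.rsh_unit u1
    have c0 : D.coeff (t - S0 - S1) = (u : RO ℤ) * rsh (D.coeff (S0 + S1)) := by
      rw [← hrev]
      congr 1
      abel
    have c1 : D.coeff (t - S0 - S1 + S0) = (u : RO ℤ) * rsh (D.coeff S1) := by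
      rw [← hrev]
      congr 1
      abel
    have c2 : D.coeff (t - S0 - S1 + S1) = (u : RO ℤ) * rsh (D.coeff S0) := by
      rw [← hrev]
      congr 1
      abel
    have c3 : D.coeff (t - S0 - S1 + S0 + S1) = (u : RO ℤ) * rsh (D.coeff 0) := by
      rw [← hrev]
      congr 1
      abel
    rw [cs, c0, c1, c2, c3, cs]
    simp only [map_add, map_mul, zero_add]
    linear_combination (-(u : RO ℤ) * (u1 : RO ℤ) * rsh (D.coeff S0)
        - (u : RO ℤ) * rsh (D.coeff (S0 + S1))) * e1' +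
      (-(u : RO ℤ) * (u0 : RO ℤ) * rsh (D.coeff S1)
        - (u : RO ℤ) * (u0 : RO ℤ) * rsh (u0 : RO ℤ) * rsh (D.coeff (S0 + S1))) * e2'
  have hnt : nu t = 0 := by
    by_contra hn
    have h1 : nu (t - S0 - S1) = nu t := by rw [map_sub, map_sub, hk.s0, hk.s1, sub_zero, sub_zero]
    have h3 := hk.free _ hout (by rw [h1]; exact hn)
    change cs D S0 S1 u0 u1 (t - S0 - S1) = 0 at h3
    rw [hcs] at h3
    refine hap ?_
    have h4 := (mul_eq_zero.mp h3).resolve_left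
      (mul_ne_zero (mul_ne_zero u.ne_zero u0.ne_zero) u1.ne_zero)
    exact Pool.Agent.B5.H59.rsh_eq_zero.mp h4
  have hmem : ∀ a ∈ supp D, t - a ∈ supp D := by
    intro a ha h
    change D.coeff (t - a) = 0 at h
    rw [hrev] at h
    have h1 := (mul_eq_zero.mp h).resolve_left u.ne_zero
    exact ha (Pool.Agent.B5.H59.rsh_eq_zero.mp h1)
  obtain ⟨-, hthin, -, -, -, -⟩ := W.e2 ℤ P L phi D fp.dd h2
  obtain ⟨lam, hpos, -⟩ := fp.dd.st.2
  have hray := (W.rsp ℤ L D ⟨lam, hpos⟩ hthin).1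
  -- the positive half
  have key : ∀ mu : L →+ ℤ, mu ≠ 0 → mu t = 0 → ∃ R, Ray D R ∧ 0 < mu R := by
    intro mu hmu hmt
    by_contra hcon
    push Not at hcon
    apply hmu
    have hle : ∀ a ∈ supp D, mu a ≤ 0 := by
      intro a ha
      by_cases ha0 : a = 0
      · rw [ha0, map_zero]
      · obtain ⟨n, hn, h1⟩ := hray a ha ha0
        have h3 : ∀ x ∈ AddSubmonoid.closure {b | Ray D b}, mu x ≤ 0 := by
          intro x hx
          induction hx using AddSubmonoid.closure_induction with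
          | mem x hx => exact hcon x hx
          | zero => rw [map_zero]
          | add x y _ _ hx hy => rw [map_add]; omega
        have h4 := h3 _ h1
        rw [map_nsmul, nsmul_eq_mul] at h4
        by_contra h5
        push Not at h5
        have : 0 < (n : ℤ) * mu a := mul_pos (by exact_mod_cast hn) h5
        omega
    have hz : ∀ a ∈ supp D, mu a = 0 := by
      intro a ha
      have h1 := hle a ha
      have h3 := hle _ (hmem a ha)
      rw [map_sub, hmt] at h3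
      omega
    have h5 : supp D ⊆ (Ker mu : Set L) := fun a ha => hz a ha
    have h6 : Module.finrank ℤ (Ker mu) = Module.finrank ℤ L := by
      have h7 := Submodule.finrank_mono (Submodule.span_le.2 h5)
      have h8 : Module.finrank ℤ (Submodule.span ℤ (supp D)) = Module.finrank ℤ L := fp.dd.spn
      have h9 := Submodule.finrank_le (Ker mu)
      omega
    ext x
    have h7 := Submodule.finrank_quotient_add_finrank (Ker mu)
    have h8 : Module.finrank ℤ (L ⧸ Ker mu) = 0 := by omega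
    rw [Module.finrank_eq_zero_iff_isTorsion] at h8
    obtain ⟨⟨n, hn⟩, h9⟩ := @h8 (Submodule.Quotient.mk x)
    have h10 : n • x ∈ Ker mu := by
      rw [← Submodule.Quotient.mk_eq_zero, Submodule.Quotient.mk_smul]
      exact h9
    have h11 : mu (n • x) = 0 := h10
    rw [map_zsmul, smul_eq_mul] at h11
    exact (mul_eq_zero.mp h11).resolve_left (nonZeroDivisors.ne_zero hn)
  refine ⟨key nu hnu hnt, ?_⟩
  obtain ⟨R, hR, h1⟩ := key (-nu) (neg_ne_zero.mpr hnu) (by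
    rw [AddMonoidHom.neg_apply, hnt, neg_zero])
  rw [AddMonoidHom.neg_apply] at h1
  exact ⟨R, hR, by omega⟩

end

end Pool.Agent.B5.KV
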