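import Pool.Agent.Lib.MP_b5021c_nt.KV.H96.Tog

/-!
# MP_b5021c_nt, all `θ`, route V: the double closing `(-1/z, z)` has full rank, or a ray of type
`(0,0)` is moved

`eta` is an arbitrary system of loads.  `Mx D eta S`: `U_S` has the largest rank.
-/

namespace Pool.Agent.B5.KV

open scoped LaurentPolynomial
open Pool.Agent.B5.H07 (US_sat mem_US)

section

variable {P L : Type} [Fintype P] [DecidableEq P] [AddCommGroup L] [Module.Free ℤ L]
  [Module.Finite ℤ L] {phi : L →+ (P → ℤ)} {D : AO ℤ L}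

theorem Kil.swap {S0 S1 : L} {u0 u1 : (RO ℤ)ˣ} {nu : L →+ ℤ} (h : Kil phi D S0 S1 u0 u1 nu) :
    Kil phi D S1 S0 u1 u0 nu := by
  refine ⟨h.s1, h.s0, fun a ha hn => ?_, fun b hb hp => h.part b hb hp.symm⟩
  have h1 := h.free a (fun i => (ha i).imp id And.symm) hn
  have h2 : a + S1 + S0 = a + S0 + S1 := add_right_comm a S1 S0
  rw [h2]
  linear_combination h1

theorem Kt.swap {S0 S1 : L} {e0 e1 : (RO ℤ)ˣ} {b : Bool} {a : L} {i j : ℕ} {p r : RO ℤ}
    (h : Kt D S0 S1 e0 e1 b a i j p r) : Kt D S1 S0 e1 e0 (!b) a j i p r := by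
  have hs : a + j • S1 + i • S0 = a + i • S0 + j • S1 := add_right_comm a (j • S1) (i • S0)
  refine ⟨⟨h.nf.j1, h.nf.i1, ?_, ?_, ?_, ?_⟩, h.p0, h.r0, ?_, ?_, ?_⟩
  · rw [h.nf.c00]
    simp only [and_comm]
  · rw [h.nf.c01]
    simp only [and_comm]
  · rw [h.nf.c10]
    simp only [and_comm]
  · have h2 : a + S1 + S0 = a + S0 + S1 := add_right_comm a S1 S0
    rw [h2, mul_comm (e1 : RO ℤ), h.nf.c11]
    simp only [and_comm]
  · rw [Bool.not_not]
    linear_combination h.th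
  · rw [hs]
    exact h.u1
  · rw [hs]
    exact h.u0

/-- The closing `(-1/z, z)` (orientation `b`) is killed by a functional with moved rays of both
signs. -/
def Dd (phi : L →+ (P → ℤ)) (D : AO ℤ L) (S0 S1 : L) (e0 e1 : (RO ℤ)ˣ) (b : Bool) : Prop :=
  ∃ nu : L →+ ℤ, Kil phi D S0 S1 (e0 * ta b) (e1 * ta (!b)) nu ∧
    (∃ R, Ray D R ∧ 0 < nu R) ∧ ∃ R, Ray D R ∧ nu R < 0

section kt

variable {S0 S1 T R X : L} {e0 e1 eT : (RO ℤ)ˣ} {b : Bool} {nu : L →+ ℤ} {i j : ℕ} {p r : RO ℤ}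

/-- With a second ray on the side of `S1` all moved rays have `j = 1`. -/
theorem all_j1 (W : Rws) (fp : FP phi D) (m : Mut D S0 S1 e0 e1) (mT : Mut D S0 T e0 eT)
    (hne : T ≠ S1) (hs : T - S1 ∈ US e0 S0 D)
    (hk : Kil phi D S0 S1 (e0 * ta b) (e1 * ta (!b)) nu) (hR : Ray D R)
    (ho : Out phi S0 S1 R) (kR : Kt D S0 S1 e0 e1 b R i j p r) (hnR : nu R ≠ 0) : j = 1 := by
  obtain ⟨-, -, -, i', j', p', r', -, h⟩ := tog W fp m mT hne hk hR ho kR hnR
    (same_side W fp m mT hk hs)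
  rcases h with h | ⟨-, -, h⟩
  · exact h.1
  · exfalso
    apply mT.m0
    apply two_mem
    have h2 := Submodule.add_mem _ h hs
    have h1 : T + S1 + (T - S1) = T + T := by abel
    rwa [h1] at h2

/-- With a second ray on the side of `S1` every ray on the other side is moved. -/
theorem moved (W : Rws) (fp : FP phi D) (m : Mut D S0 S1 e0 e1) (mT : Mut D S0 T e0 eT)
    (hne : T ≠ S1) (hs : T - S1 ∈ US e0 S0 D) (hd : Dd phi D S0 S1 e0 e1 b)
    {eR : (RO ℤ)ˣ} (mR : Mut D S0 R e0 eR) (hRS : R ≠ S1) (hR : R + S1 ∈ US e0 S0 D) :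
    ∃ nu : L →+ ℤ, Kil phi D S0 S1 (e0 * ta b) (e1 * ta (!b)) nu ∧ nu R ≠ 0 ∧ nu T = 0 := by
  obtain ⟨nu, hk, ⟨X, hX, hX1⟩, -⟩ := hd
  refine ⟨nu, hk, ?_, same_side W fp m mT hk hs⟩
  intro hn
  obtain ⟨ho, i, j, p, r, kX⟩ := kt_ray W.mnf W.mpa fp.dd.inj fp.dd.bin m hk hX (by omega)
  have h1 := all_j1 W fp m mT hne hs hk hX ho kX (by omega)
  obtain ⟨-, -, -, i', j', p', r', -, h⟩ := tog W fp m mR hRS hk hX ho kX (by omega) hn
  rcases h with ⟨-, -, h⟩ | h
  · apply mR.m0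
    apply two_mem
    have h2 := Submodule.add_mem _ hR h
    have h3 : R + S1 + (R - S1) = R + R := by abel
    rwa [h3] at h2
  · omega

end kt

/-- CLAIM 1: one ray on each side. -/
theorem claim1 (W : Rws) (fp : FP phi D) {eta : L → (RO ℤ)ˣ} {S0 S1 T : L} (hS0 : Mx D eta S0)
    (m : Mut D S0 S1 (eta S0) (eta S1)) (mT : Mut D S0 T (eta S0) (eta T))
    (hs : T - S1 ∈ US (eta S0) S0 D)
    (hd1 : ∀ b, Dd phi D S0 S1 (eta S0) (eta S1) b)
    (hdT : ∀ b, Dd phi D S0 T (eta S0) (eta T) b) : T = S1 := by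
  by_contra hne
  have hs' : S1 - T ∈ US (eta S0) S0 D := by
    have := Submodule.neg_mem _ hs
    rwa [neg_sub] at this
  -- the moved ray
  obtain ⟨nu, hk, ⟨R, hR, hR1⟩, -⟩ := hd1 true
  obtain ⟨ho, i, j, p, r, kR⟩ := kt_ray W.mnf W.mpa fp.dd.inj fp.dd.bin m hk hR (by omega)
  have hj := all_j1 W fp m mT hne hs hk hR ho kR (by omega)
  have hRS : R + S1 ∈ US (eta S0) S0 D := by
    have := kR.u0'
    rwa [hj, one_smul] at this
  have hRU : R ∉ US (eta S0) S0 D := by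
    intro h
    apply m.m0
    have := Submodule.sub_mem _ hRS h
    rwa [add_sub_cancel_left] at this
  have mR := (hS0.mut W fp hR hRU).1
  have hRne : R ≠ S1 := by
    rintro rfl
    rw [hk.s1] at hR1
    omega
  have hnT := same_side W fp m mT hk hs
  have hRT : R ≠ T := by
    rintro rfl
    omega
  obtain ⟨nu', hk', hn'R, hn'T⟩ := moved W fp m mT hne hs (hd1 false) mR hRne hRS
  have hij : i = j := kR.both (by
    have := hk'.free R ho hn'R
    exact this)
  have hi : i = 1 := by rw [hij, hj]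
  -- the pair `(S0, T)`
  have hRT' : R + T ∈ US (eta S0) S0 D := by
    have := Submodule.add_mem _ hRS hs
    have h1 : R + S1 + (T - S1) = R + T := by abel
    rwa [h1] at this
  obtain ⟨mu, hmu, hmR, -⟩ := moved W fp mT m (Ne.symm hne) hs' (hdT true) mR hRT hRT'
  obtain ⟨mu', hmu', hmR', -⟩ := moved W fp mT m (Ne.symm hne) hs' (hdT false) mR hRT hRT'
  obtain ⟨hoT, iT, jT, pT, rT, kT⟩ := kt_ray W.mnf W.mpa fp.dd.inj fp.dd.bin mT hmu hR hmR
  have hijT : iT = jT := kT.both (hmu'.free R hoT hmR')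
  have hjT := all_j1 W fp mT m (Ne.symm hne) hs' hmu hR hoT kT hmR
  have hRS0T : R + S0 ∈ US (eta T) T D := by
    have := kT.u1'
    rwa [hijT, hjT, one_smul] at this
  have hRnT : R ∉ US (eta T) T D := by
    intro h
    apply mT.m1
    have := Submodule.sub_mem _ hRS0T h
    rwa [add_sub_cancel_left] at this
  -- the class of `R + T`
  obtain ⟨hRTd, hout, hnz, i', j', p', r', kRT, hjj⟩ := tog W fp m mT hne hk hR ho kR (by omega) hnT
  have hj' : j' = 0 := by
    rcases hjj with h | h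
    · exact h.2.1
    · omega
  have hi' : i' = 0 := by
    have h1 : i' = j' := kRT.both (by
      refine hk'.free (R + T) hout ?_
      rw [map_add, hn'T, add_zero]
      exact hn'R)
    rw [h1, hj']
  have hRTU1 : R + T ∈ US (eta S1) S1 D := by
    have := kRT.u1'
    rwa [hi', zero_smul, add_zero] at this
  have hRS0U1 : R + S0 ∈ US (eta S1) S1 D := by
    have := kR.u1'
    rwa [hi, one_smul] at this
  have hTU1 : T ∉ US (eta S1) S1 D := by
    intro h
    apply m.m1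
    have h1 := Submodule.sub_mem _ hRS0U1 (Submodule.sub_mem _ hRTU1 h)
    have h3 : R + S0 - (R + T - T) = S0 := by abel
    rwa [h3] at h1
  have hS1 := (hS0.mut W fp m.r1 m.m0).2
  have m1T := (hS1.mut W fp mT.r1 hTU1).1
  -- the coefficients
  have oT := out_mut W fp m mT hne
  obtain ⟨k, hk0⟩ := KE.exists_port fp.dd mT.r1
  have hTk : phi T k = 1 := hk0
  obtain ⟨-, g1⟩ := f1use W fp mT.r1 kR.c00 hRnT (by
    intro h
    have h1 := h k ((hRTd k).resolve_right (by rw [hTk]; exact one_ne_zero))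
    omega)
  obtain ⟨-, g2⟩ := f1use W fp (e := eta T) mT.r1 (x := R + S0 + S1) kR.c11 (by
    intro h
    apply m1T.m1
    have := Submodule.sub_mem _ h hRS0T
    rwa [add_sub_cancel_left] at this) (by
    intro h
    have h2 := (oT k).resolve_left (by rw [hTk]; exact one_ne_zero)
    have h3 := (hRTd k).resolve_right (by rw [hTk]; exact one_ne_zero)
    have h1 := h k (by
      rw [map_add, map_add, Pi.add_apply, Pi.add_apply, h3, h2.1, h2.2]
      norm_num)
    omega)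
  have hp : p = la * r := by
    have h1 := kR.th
    rw [hi, hj, pow_one, pow_one, mul_assoc, ta_mul] at h1
    linear_combination -h1
  have hp' : p' = -(la * r') := by
    have h1 := kRT.th
    rw [hi', hj', pow_zero, pow_zero, mul_one, mul_one] at h1
    exact h1
  have c1 := kR.nf.c00
  have c2 := kR.nf.c11
  have c3 := kRT.nf.c00
  have c4 := kRT.nf.c11
  rw [hi, hj, if_neg (by norm_num), zero_add] at c1
  rw [hi, hj, if_pos (by norm_num)] at c2
  rw [hi', hj', if_pos (by norm_num)] at c3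
  rw [hi', hj', if_neg (by norm_num), zero_add] at c4
  rw [add_right_comm (R + S0) S1 T, add_right_comm R S0 T] at g2
  have q1 : (eta T : RO ℤ) * ((1 - la) * r') = -r := by
    rw [c1, c3, hp'] at g1
    linear_combination g1
  have q2 : (eta T : RO ℤ) * r' = -((1 + la) * r) := by
    rw [hp] at c2
    linear_combination ((eta S0 : RO ℤ) * (eta S1 : RO ℤ)) * g2 - (eta T : RO ℤ) * c4 - c2
  have q3 : la * la * r = 0 := by
    linear_combination q1 - (1 - la) * q2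
  exact mul_ne_zero (mul_ne_zero la_ne la_ne) kR.r0 q3

/-- (VDF) for some mutual pair of maximal rays the closing `(-1/z, z)` has full rank or a ray of
type `(0,0)` is moved. -/
theorem vdf (W : Rws) (fp : FP phi D) (h2 : 2 ≤ Module.finrank ℤ L) {eta : L → (RO ℤ)ˣ} {S : L}
    (hS : Mx D eta S) (hout : ∃ T, Ray D T ∧ T ∉ US (eta S) S D)
    (hap : ∀ S0 S1, Mx D eta S0 → Mut D S0 S1 (eta S0) (eta S1) → ∀ b,
      cs D S0 S1 (eta S0 * ta b) (eta S1 * ta (!b)) 0 ≠ 0) :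
    ∃ S0 S1, Mx D eta S0 ∧ Mx D eta S1 ∧ Mut D S0 S1 (eta S0) (eta S1) ∧
      ((∀ nu, Kil phi D S0 S1 (eta S0 * ta true) (eta S1 * ta false) nu → nu = 0) ∨
        ∃ (nu : L →+ ℤ) (R : L) (p r : RO ℤ),
          Kil phi D S0 S1 (eta S0 * ta true) (eta S1 * ta false) nu ∧ Ray D R ∧ nu R ≠ 0 ∧
          Out phi S0 S1 R ∧ Kt D S0 S1 (eta S0) (eta S1) true R 0 0 p r) := by
  by_contra hcon
  push Not at hcon
  -- every closing has a drop, no moved ray has the type `(0,0)`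
  have hT : ∀ S0 S1, Mx D eta S0 → Mut D S0 S1 (eta S0) (eta S1) →
      Dd phi D S0 S1 (eta S0) (eta S1) true := by
    intro S0 S1 h0 m
    obtain ⟨-, h1⟩ := h0.mut W fp m.r1 m.m0
    obtain ⟨⟨nu, hk, hn⟩, -⟩ := hcon S0 S1 h0 h1 m
    obtain ⟨h3, h4⟩ := signs W fp h2 m hk hn (hap S0 S1 h0 m true)
    exact ⟨nu, hk, h3, h4⟩
  have hF : ∀ S0 S1, Mx D eta S0 → Mut D S0 S1 (eta S0) (eta S1) →
      Dd phi D S0 S1 (eta S0) (eta S1) false := by
    intro S0 S1 h0 m
    obtain ⟨-, h1⟩ := h0.mut W fp m.r1 m.m0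
    obtain ⟨nu, hk, h3, h4⟩ := hT S1 S0 h1 (Mut.symm m)
    exact ⟨nu, Kil.swap hk, h3, h4⟩
  have hD : ∀ S0 S1, Mx D eta S0 → Mut D S0 S1 (eta S0) (eta S1) → ∀ b,
      Dd phi D S0 S1 (eta S0) (eta S1) b := by
    intro S0 S1 h0 m b
    cases b
    · exact hF S0 S1 h0 m
    · exact hT S0 S1 h0 m
  have h00 : ∀ S0 S1, Mx D eta S0 → Mut D S0 S1 (eta S0) (eta S1) → ∀ b,
      ∀ (nu : L →+ ℤ) (R : L) (i j : ℕ) (p r : RO ℤ),
        Kil phi D S0 S1 (eta S0 * ta b) (eta S1 * ta (!b)) nu → Ray D R → nu R ≠ 0 →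
        Out phi S0 S1 R → Kt D S0 S1 (eta S0) (eta S1) b R i j p r → ¬ (i = 0 ∧ j = 0) := by
    rintro S0 S1 h0 m b nu R i j p r hk hR hn ho kt ⟨rfl, rfl⟩
    obtain ⟨-, h1⟩ := h0.mut W fp m.r1 m.m0
    cases b
    · exact (hcon S1 S0 h1 h0 (Mut.symm m)).2 nu R p r (Kil.swap hk) hR hn
        (fun q => (ho q).imp id And.symm) (Kt.swap kt)
    · exact (hcon S0 S1 h0 h1 m).2 nu R p r hk hR hn ho kt
  have c1 : ∀ S0 S1 T, Mx D eta S0 → Mut D S0 S1 (eta S0) (eta S1) → Ray D T →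
      T ∉ US (eta S0) S0 D → T - S1 ∈ US (eta S0) S0 D → T = S1 := by
    intro S0 S1 T h0 m hT' hTU hs
    obtain ⟨mT, -⟩ := h0.mut W fp hT' hTU
    exact claim1 W fp h0 m mT hs (hD S0 S1 h0 m) (hD S0 T h0 mT)
  obtain ⟨S1, hr1, hU1⟩ := hout
  obtain ⟨m, hS1⟩ := hS.mut W fp hr1 hU1
  -- a moved ray of type `(0,1)`
  have key : ∀ b, ∃ (nu : L →+ ℤ) (R : L) (p r : RO ℤ),
      Kil phi D S S1 (eta S * ta b) (eta S1 * ta (!b)) nu ∧ Ray D R ∧ nu R ≠ 0 ∧
        Out phi S S1 R ∧ Kt D S S1 (eta S) (eta S1) b R 0 1 p r := by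
    intro b
    obtain ⟨nu, hk, ⟨R1, hR1, hn1⟩, R2, hR2, hn2⟩ := hD S S1 hS m b
    have hR12 : R1 ≠ R2 := by
      rintro rfl
      omega
    obtain ⟨o1, i1, j1, p1, r1, k1⟩ := kt_ray W.mnf W.mpa fp.dd.inj fp.dd.bin m hk hR1 (by omega)
    obtain ⟨o2, i2, j2, p2, r2, k2⟩ := kt_ray W.mnf W.mpa fp.dd.inj fp.dd.bin m hk hR2 (by omega)
    have n1 := h00 S S1 hS m b nu R1 i1 j1 p1 r1 hk hR1 (by omega) o1 k1
    have n2 := h00 S S1 hS m b nu R2 i2 j2 p2 r2 hk hR2 (by omega) o2 k2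
    have out0 : ∀ {X : L}, X + S1 ∈ US (eta S) S D → X ∉ US (eta S) S D := by
      intro X h h'
      apply m.m0
      have := Submodule.sub_mem _ h h'
      rwa [add_sub_cancel_left] at this
    have out1 : ∀ {X : L}, X + S ∈ US (eta S1) S1 D → X ∉ US (eta S1) S1 D := by
      intro X h h'
      apply m.m1
      have := Submodule.sub_mem _ h h'
      rwa [add_sub_cancel_left] at this
    have hjj : ¬ (j1 = 1 ∧ j2 = 1) := by
      rintro ⟨e1, e2⟩
      apply hR12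
      have u1 := k1.u0'
      have u2 := k2.u0'
      rw [e1, one_smul] at u1
      rw [e2, one_smul] at u2
      have mR2 := (hS.mut W fp hR2 (out0 u2)).1
      apply c1 S R2 R1 hS mR2 hR1 (out0 u1)
      have := Submodule.sub_mem _ u1 u2
      rwa [add_sub_add_right_eq_sub] at this
    have hii : ¬ (i1 = 1 ∧ i2 = 1) := by
      rintro ⟨e1, e2⟩
      apply hR12
      have u1 := k1.u1'
      have u2 := k2.u1'
      rw [e1, one_smul] at u1
      rw [e2, one_smul] at u2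
      have mR2 := (hS1.mut W fp hR2 (out1 u2)).1
      apply c1 S1 R2 R1 hS1 mR2 hR1 (out1 u1)
      have := Submodule.sub_mem _ u1 u2
      rwa [add_sub_add_right_eq_sub] at this
    have a1 := k1.nf.i1
    have a2 := k1.nf.j1
    have a3 := k2.nf.i1
    have a4 := k2.nf.j1
    by_cases hj1 : j1 = 1
    · have hi1 : i1 = 0 := by omega
      rw [hi1, hj1] at k1
      exact ⟨nu, R1, p1, r1, hk, hR1, by omega, o1, k1⟩
    · have hj2 : j2 = 1 := by omega
      have hi2 : i2 = 0 := by omega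
      rw [hi2, hj2] at k2
      exact ⟨nu, R2, p2, r2, hk, hR2, by omega, o2, k2⟩
  obtain ⟨nu, R, p, r, hk, hR, hn, ho, kt⟩ := key true
  obtain ⟨nu', R', p', r', hk', hR', hn', ho', kt'⟩ := key false
  have u1 := kt.u0'
  have u2 := kt'.u0'
  rw [one_smul] at u1 u2
  have out0 : ∀ {X : L}, X + S1 ∈ US (eta S) S D → X ∉ US (eta S) S D := by
    intro X h h'
    apply m.m0
    have := Submodule.sub_mem _ h h'
    rwa [add_sub_cancel_left] at this
  have mR' := (hS.mut W fp hR' (out0 u2)).1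
  have hRR : R = R' := by
    apply c1 S R' R hS mR' hR (out0 u1)
    have := Submodule.sub_mem _ u1 u2
    rwa [add_sub_add_right_eq_sub] at this
  subst hRR
  have := kt.both (hk'.free R ho hn')
  omega

end

end Pool.Agent.B5.KV
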